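import Pool.Agent.U292.PS.Amp

/-!
# A nontrivial movable line bundle `L`, `q_X(L) = 0`, on a primitive symplectic variety, no power of
# which defines a rational Lagrangian fibration

Let `X = V / Γ` be the quotient of a complex torus of dimension 4 by the dihedral group of order eight
which is constructed in `Pool.Agent.U292.PS.Grp`; for the Gaussian lattice it is projective. The linear
parts of `Γ` are the signed permutations of the two factors of `V = ℂ² × ℂ²`, and all elements of
determinant `-1` act without fixed points, because their translation parts are half lattice vectors in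
suitable directions. So the étale double cover `V / Γ₁ → X`, `Γ₁` the subgroup of the elements of
determinant `1`, gives a line bundle `L` on `X` which is not isomorphic to `O_X`, with `L ⊗ L = O_X`. It
is nef, so that `c_1(L) = 0` is in the closure of the movable cone, and `q_X(L) = 0`. As `L` is torsion,
all sections of its powers are constants, and no power of `L` defines a map to a variety of positive
dimension. So Q1 is false for `X` and `L` if nontrivial means not isomorphic to `O_X`, and the rational
SYZ conjecture has to be stated for line bundles which are not torsion (for these it holds for all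
primitive symplectic torus quotients, by the starting results `TorusQuotients` and
`IsotropicClasses`).

`IsPrimitiveSymplectic`, `LineBundle`, `LineBundle.pow` and `LineBundle.IsTrivial` are defined in
`Pool.Agent.W594.SYZ.Defs2`; `IsChernForm`, `IsNefForm`, `IsPositiveForm` and `IsDegenerateForm` in
`Pool.Agent.W594.SYZ.TQDefs`.
-/

set_option autoImplicit false

namespace Pool.Agent.Results.MP_e4ecdb_ag.TorsionMovable

open Pool.Agent.W594.SYZ2

/-- There are a projective primitive symplectic variety `X = V / Γ`, the quotient of a complex torus
of dimension 4 by a finite group, and a line bundle `L` on `X` with the Chern form `0` (so `L` is nef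
and in the closure of the movable cone, and `q_X(L) = 0`) which is not isomorphic to `O_X`, such that
any two sections of a power `L^k` are proportional: the linear systems of the powers of `L` do not
define rational maps to varieties of positive dimension. There are no sections for odd `k`. -/
theorem result : ∃ (V : Type) (_ : NormedAddCommGroup V) (_ : NormedSpace ℂ V)
    (Γ : Subgroup (V ≃ᵃ[ℂ] V)) (L : LineBundle Γ),
      Module.finrank ℂ V = 4 ∧ IsPrimitiveSymplectic Γ ∧
      (∃ (A : LineBundle Γ) (HA : V → V → ℂ), IsChernForm A HA ∧ IsPositiveForm HA) ∧
      IsChernForm L (fun _ _ => 0) ∧ IsNefForm (fun _ _ : V => 0) ∧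
      IsDegenerateForm (fun _ _ : V => 0) ∧ ¬ L.IsTrivial ∧
      (∀ (k : ℕ) (s s' : V → ℂ), (L.pow k).IsSection s → (L.pow k).IsSection s' →
        ∀ v w, s v * s' w = s w * s' v) ∧
      ∀ (k : ℕ) (s : V → ℂ), Odd k → (L.pow k).IsSection s → ∀ v, s v = 0 := by
  refine ⟨Pool.Agent.U292.PS.V, inferInstance, inferInstance,
    Pool.Agent.U292.PS.Γ Pool.Agent.U292.PS.gb,
    Pool.Agent.U292.PS.detBundle _, by simp, Pool.Agent.U292.PS.prim,
    ⟨Pool.Agent.U292.PS.ample, _, Pool.Agent.U292.PS.ample_chern, Pool.Agent.U292.PS.H16_pos⟩,
    Pool.Agent.U292.PS.chern_zero, fun v => by simp, ⟨(fun _ => 1, 0), ?_, fun _ => rfl⟩,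
    Pool.Agent.U292.PS.not_trivial, fun k s s' hs hs' v w => ?_,
    fun k s hk hs => Pool.Agent.U292.PS.section_odd hk hs⟩
  · intro h
    have := congrFun (congrArg Prod.fst h) 0
    simp at this
  · rw [Pool.Agent.U292.PS.section_const k hs v w, Pool.Agent.U292.PS.section_const k hs' v w]

end Pool.Agent.Results.MP_e4ecdb_ag.TorsionMovable
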